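import Pool.Agent.H97.PR.Targets

/-!
# DPT: the potential bounds the depth
-/

set_option autoImplicit false

namespace Pool.Agent.H94.PR

open Finset Pool.Agent.H97.PR

/-- (DPT) -/
theorem pf_DPT (hLEF : T_LEF) (hSTP : T_STP) : T_DPT := by
  intro n N k m blk γ B D q σ g F G hE S A h hD i
  induction i using Nat.strong_induction_on with
  | _ i ih =>
    intro a V Cl hi hS hA
    by_cases hsm : dm V + γ * Cl.card ≤ γ * N + B * q
    · omega
    · have hlt : γ * N + B * q < dm V + γ * Cl.card := not_le.1 hsm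
      rcases hD.step i hi with hl | ⟨j, hj, hh, hsub⟩ | ⟨j, k', hj, hk, hhj, hhk, hsub⟩
      · exact absurd (hLEF n N k m blk γ B D q σ g F G hE a V Cl (A i) hS hA hl) hsm
      · have h1 := ih j hj a V Cl (lt_trans hj hi) hS (hA.trans hsub)
        omega
      · have hjS : j < S := lt_trans hj hi
        have hkS : k' < S := lt_trans hk hi
        rcases hSTP n N k m blk γ B D q σ g F G hE a V Cl (A j) (A k') (hD.aff j hjS)
          (hD.aff k' hkS) hS (hA.trans hsub) hlt with h1 | h1 | h1
        · have h2 := ih j hj a V Cl hjS hS h1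
          omega
        · have h2 := ih k' hk a V Cl hkS hS h1
          omega
        · obtain ⟨V₁, Cl₁, R₁, R₂, hCl, hle, hR1P, hR1, hR2Q, hR2, hdis, hne1, hne2, hs1, hs2,
            hc1, hc2⟩ := h1
          obtain ⟨x, hx⟩ := hne1
          obtain ⟨hx1, hx2⟩ := hs1 x hx
          have h2 := ih j hj x V₁ Cl₁ hjS hx1 (hx2.trans hR1P)
          omega

end Pool.Agent.H94.PR
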